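import Pool.Agent.helper19.HF.SpecC

/-!
# Row hz:FINZ (MP_bf63dc_nt): negations and splitting of windows by residues
-/

set_option autoImplicit false

namespace Pool.Agent.HF

open Finset Pool.Agent.AT Pool.Agent.IT

theorem FINZ_split (D M : ℕ) (hD : 1 ≤ D) (Q : ℕ → Prop) [DecidablePred Q] :
    #{t ∈ range M | Q t} = ∑ j ∈ range D, #{t ∈ range ((M + D - 1 - j) / D) | Q (j + D * t)} := by
  have h1 : #{t ∈ range M | Q t} = ∑ j ∈ range D, #{t ∈ (range M).filter Q | t % D = j} := by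
    refine card_eq_sum_card_fiberwise (f := fun t => t % D) (t := range D) ?_
    intro t _
    rw [mem_coe, mem_range]
    exact Nat.mod_lt _ hD
  rw [h1]
  refine sum_congr rfl fun j hj => ?_
  rw [mem_range] at hj
  symm
  refine card_bij (fun t _ => j + D * t) ?_ ?_ ?_
  · intro t ht
    rw [mem_filter, mem_range] at ht
    obtain ⟨ht, hQ⟩ := ht
    have h2 : t + 1 ≤ (M + D - 1 - j) / D := ht
    rw [Nat.le_div_iff_mul_le hD] at h2
    rw [mem_filter, mem_filter, mem_range]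
    refine ⟨⟨?_, hQ⟩, ?_⟩
    · have e : (t + 1) * D = D * t + D := by ring
      rw [e] at h2
      omega
    · rw [Nat.add_mul_mod_self_left, Nat.mod_eq_of_lt hj]
  · intro t _ t' _ h
    have h2 : D * t = D * t' := by
      have h3 : j + D * t = j + D * t' := h
      omega
    exact Nat.eq_of_mul_eq_mul_left hD h2
  · intro x hx
    rw [mem_filter, mem_filter, mem_range] at hx
    obtain ⟨⟨hx, hQ⟩, hxj⟩ := hx
    have e : j + D * (x / D) = x := by
      rw [← hxj]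
      exact Nat.mod_add_div x D
    refine ⟨x / D, ?_, e⟩
    rw [mem_filter, mem_range]
    refine ⟨?_, by rw [e]; exact hQ⟩
    change x / D + 1 ≤ (M + D - 1 - j) / D
    rw [Nat.le_div_iff_mul_le hD]
    have e2 : (x / D + 1) * D = D * (x / D) + D := by ring
    rw [e2]
    omega

theorem FINZ_len (D M L j : ℕ) (hD : 1 ≤ D) (hj : j < D) (hM : D * (L + 1) ≤ M) : L ≤ (M + D - 1 - j) / D := by
  rw [Nat.le_div_iff_mul_le hD]
  have e : D * (L + 1) = L * D + D := by ring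
  rw [e] at hM
  omega

open Classical in
/-- the windows of step `s D` are rich in all classes which contain an admissible number -/
theorem FINZ_unif (a b D S : ℕ) (d : ℝ) (hD : 1 ≤ D) (hS : 1 ≤ S) (hDS : D ∣ S)
    (h : ∀ c : ℤ, Ad a b c → ¬ Low (TC a b) D c d) :
    ∃ L : ℕ, ∀ c : ℤ, Ad a b c → ∀ l : ℕ, L ≤ l → ∀ Y : ℤ, (D : ℤ) ∣ Y - c → d * l ≤ (cz (TC a b) Y S l : ℝ) := by
  have h1 : ∀ c : ℤ, Ad a b c → ∃ L : ℕ, ∀ l : ℕ, L ≤ l → ∀ Y : ℤ, (D : ℤ) ∣ Y - c → d * l ≤ (cz (TC a b) Y S l : ℝ) := by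
    intro c hc
    by_contra hcon
    push Not at hcon
    refine h c hc ⟨S, hS, hDS, fun l₀ => ?_⟩
    obtain ⟨l, hl, Y, hY, hlt⟩ := hcon l₀
    exact ⟨l, hl, Y, hY, hlt.le⟩
  have h2 : ∀ r : ℕ, ∃ L : ℕ, ∀ c : ℤ, Ad a b c → (D : ℤ) ∣ c - r → ∀ l : ℕ, L ≤ l → ∀ Y : ℤ, (D : ℤ) ∣ Y - c →
      d * l ≤ (cz (TC a b) Y S l : ℝ) := by
    intro r
    by_cases hr : ∃ c : ℤ, Ad a b c ∧ (D : ℤ) ∣ c - r
    · obtain ⟨c₀, hc₀, hcr⟩ := hr
      obtain ⟨L, hL⟩ := h1 c₀ hc₀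
      refine ⟨L, fun c _ hc l hl Y hY => hL l hl Y ?_⟩
      have e : Y - c₀ = (Y - c) + (c - r) - (c₀ - r) := by ring
      rw [e]
      exact dvd_sub (dvd_add hY hc) hcr
    · refine ⟨0, fun c hc hcr => absurd ⟨c, hc, hcr⟩ hr⟩
  choose L hL using h2
  refine ⟨∑ r ∈ range D, L r, fun c hc l hl Y hY => ?_⟩
  have hD0 : (D : ℤ) ≠ 0 := by positivity
  have hDpos : (0 : ℤ) < D := by exact_mod_cast hD
  have hr0 : 0 ≤ c % D := Int.emod_nonneg _ hD0
  have hrD : c % D < D := Int.emod_lt_of_pos _ hDpos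
  obtain ⟨r, hr⟩ := Int.eq_ofNat_of_zero_le hr0
  have hrlt : r < D := by
    rw [hr] at hrD
    exact_mod_cast hrD
  refine hL r c hc ?_ l ?_ Y hY
  · have : (D : ℤ) ∣ c - c % D := Int.dvd_self_sub_emod
    rw [hr] at this
    exact_mod_cast this
  · refine le_trans ?_ hl
    exact single_le_sum (f := L) (fun _ _ => Nat.zero_le _) (mem_range.2 hrlt)

theorem FINZ : FINZ_stmt := by
  classical
  intro hyp
  by_cases hA : ∀ δ : ℝ, 0 < δ → ∃ n₀ : ℕ, 1 ≤ n₀ ∧ ∀ s : ℕ, 1 ≤ s → n₀ ∣ s → ∃ M₀ : ℕ, ∀ M : ℕ, M₀ ≤ M → ∀ y : ℤ, (n₀ : ℤ) ∣ y →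
      (1 - δ) * M ≤ (#{t ∈ range M | TC 1 1 (y + s * (t : ℕ))} : ℝ)
  · left
    intro δ hδ
    obtain ⟨n₀, hn₀, h⟩ := hA δ hδ
    refine ⟨n₀, hn₀, fun s hs hns => ?_⟩
    obtain ⟨M₀, h⟩ := h s hs hns
    refine ⟨M₀, fun M hM y hy => ?_⟩
    refine (h M hM y hy).trans (le_of_eq ?_)
    refine congrArg (fun z : Finset ℕ => ((#z : ℕ) : ℝ)) ?_
    ext t
    simp only [mem_filter]
  · right
    push Not at hA
    obtain ⟨δ₀, hδ₀, hA⟩ := hA
    have hm0 : 0 < min δ₀ (1 / 10 ^ 6) := lt_min hδ₀ (by norm_num)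
    have hm1 : min δ₀ (1 / 10 ^ 6) ≤ δ₀ := min_le_left _ _
    have hm2 : min δ₀ (1 / 10 ^ 6) ≤ 1 / 10 ^ 6 := min_le_right _ _
    obtain ⟨δ, hδ⟩ : ∃ δ : ℝ, δ = min δ₀ (1 / 10 ^ 6) := ⟨_, rfl⟩
    rw [← hδ] at hm0 hm1 hm2
    have hLow : ∀ s : ℕ, 1 ≤ s → Low (TC 1 1) s 0 (1 - δ) := by
      intro s hs
      obtain ⟨s₁, hs₁, hss, h⟩ := hA s hs
      refine ⟨s₁, hs₁, hss, fun l₀ => ?_⟩
      obtain ⟨M, hM, y, hy, hlt⟩ := h l₀
      refine ⟨M, hM, y, by rw [sub_zero]; exact hy, ?_⟩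
      have hMpos : (0 : ℝ) ≤ M := Nat.cast_nonneg _
      have h1 : (1 - δ₀) * (M : ℝ) ≤ (1 - δ) * M := mul_le_mul_of_nonneg_right (by linarith) hMpos
      have h2 : (cz (TC 1 1) y s₁ M : ℝ) = (#{t ∈ range M | TC 1 1 (y + s₁ * (t : ℕ))} : ℝ) := by
        refine congrArg (fun z : Finset ℕ => ((#z : ℕ) : ℝ)) ?_
        ext t
        simp only [mem_filter]
      rw [h2]
      linarith
    intro a b ha hb hab s hs
    obtain ⟨D, hD, h⟩ := hyp a b ha hb hab δ hm0 (by linarith [show (1 / 10 ^ 6 : ℝ) ≤ 1 / 4 by norm_num])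
    have hno : ∀ c : ℤ, Ad a b c → ¬ Low (TC a b) D c (2 * (1 / 4 + 1 / 500000) - δ) := by
      intro c hc hlow
      exact h c hc hlow fun s hs _ => hLow s hs
    have hS : 1 ≤ s * D := Nat.mul_pos hs hD
    obtain ⟨L, hL⟩ := FINZ_unif a b D (s * D) _ hD hS (Dvd.intro_left s rfl) hno
    refine ⟨D * (L + 1), fun M hM y => ?_⟩
    have key : ∀ j ∈ range D,
        (1 / 2 + 3 / 10 ^ 6) * (#{t ∈ range ((M + D - 1 - j) / D) | Ad a b (y + s * ((j + D * t : ℕ) : ℤ))} : ℝ) ≤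
          (#{t ∈ range ((M + D - 1 - j) / D) | TC a b (y + s * ((j + D * t : ℕ) : ℤ))} : ℝ) := by
      intro j hj
      rw [mem_range] at hj
      have hlen := FINZ_len D M L j hD hj hM
      generalize (M + D - 1 - j) / D = l at hlen ⊢
      have harg : ∀ t : ℕ, y + (s : ℤ) * ((j + D * t : ℕ) : ℤ) = (y + s * j) + ((s * D : ℕ) : ℤ) * (t : ℕ) := by
        intro t; push_cast; ring
      by_cases hex : ∃ t : ℕ, Ad a b (y + s * ((j + D * t : ℕ) : ℤ))
      · obtain ⟨t₀, ht₀⟩ := hex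
        have h1 := hL _ ht₀ l hlen (y + s * j) (by
          rw [harg]
          have e : (y + (s : ℤ) * j) - ((y + s * j) + ((s * D : ℕ) : ℤ) * (t₀ : ℕ)) = (D : ℤ) * (-(s * t₀)) := by
            push_cast; ring
          rw [e]
          exact dvd_mul_right _ _)
        have h2 : (cz (TC a b) (y + s * j) (s * D) l : ℝ) =
            (#{t ∈ range l | TC a b (y + s * ((j + D * t : ℕ) : ℤ))} : ℝ) := by
          refine congrArg (fun z : Finset ℕ => ((#z : ℕ) : ℝ)) ?_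
          ext t
          simp only [mem_filter]
          rw [harg]
        rw [h2] at h1
        have h3 : (#{t ∈ range l | Ad a b (y + s * ((j + D * t : ℕ) : ℤ))} : ℝ) ≤ l := by
          have := card_filter_le (range l) (fun t => Ad a b (y + s * ((j + D * t : ℕ) : ℤ)))
          rw [card_range] at this
          exact_mod_cast this
        have hl0 : (0 : ℝ) ≤ l := Nat.cast_nonneg _
        have h4 : (1 / 2 + 3 / 10 ^ 6 : ℝ) * l ≤ (2 * (1 / 4 + 1 / 500000) - δ) * l :=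
          mul_le_mul_of_nonneg_right (by norm_num at hm2 ⊢; linarith) hl0
        have h5 : (1 / 2 + 3 / 10 ^ 6 : ℝ) * (#{t ∈ range l | Ad a b (y + s * ((j + D * t : ℕ) : ℤ))} : ℝ) ≤
            (1 / 2 + 3 / 10 ^ 6 : ℝ) * l := mul_le_mul_of_nonneg_left h3 (by norm_num)
        linarith
      · have h0 : #{t ∈ range l | Ad a b (y + s * ((j + D * t : ℕ) : ℤ))} = 0 := by
          rw [card_eq_zero, filter_eq_empty_iff]
          intro t _ ht
          exact hex ⟨t, ht⟩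
        rw [h0, Nat.cast_zero, mul_zero]
        exact Nat.cast_nonneg _
    have hsum := sum_le_sum key
    rw [← mul_sum] at hsum
    have s1 := FINZ_split D M hD (fun t => Ad a b (y + s * (t : ℕ)))
    have s2 := FINZ_split D M hD (fun t => TC a b (y + s * (t : ℕ)))
    have s1' := congrArg (fun n : ℕ => (n : ℝ)) s1
    have s2' := congrArg (fun n : ℕ => (n : ℝ)) s2
    simp only [Nat.cast_sum] at s1' s2'
    rw [← s1', ← s2'] at hsum
    exact hsum

end Pool.Agent.HF
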